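import Pool.Agent.MWFE.StmtsC
import Pool.Agent.Helper24_MWE.PNA

/-!
# Squad MWFE (MP_23468a_al): the row EAZ (helper7)
-/

set_option autoImplicit false

namespace Pool.Agent.MWFE.H7

open Pool.Agent.Helper14_MV Pool.Agent.Helper2_MV Pool.Agent.MVD
open Pool.Agent.MWFE

theorem eaz (h1 : FazStmt) (h2 : StzStmt) (h3 : SbzStmt) : EazStmt := by
  intro n β m R c hmd hS
  obtain ⟨f1, f2, f3, _⟩ := h1 n β m R c hS.hz hS.can hS.pR hS.no
  refine Pool.Agent.MWE.H24.pna β (fun s w => FamZ n β m R c s w) (fun s => FqZ n m R s c) hmd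
    (fun s w hf => hf.1) f1 f2 f3 ?_
  intro s s' hs hs' hck φ M Q t hF
  obtain ⟨t', ht'⟩ := h2 n β m R c s s' t M Q φ hS hs hs' hF
  exact ⟨t', ht', h3 n β m R c s s' t t' M Q φ hS hs hs' hck hF ht'⟩

end Pool.Agent.MWFE.H7
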