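import Pool.Agent.MWFE.StmtsC
import Pool.Agent.Helper81_MWE.FST

/-!
# Squad MWFE (MP_23468a_al): the row FSZ, the structure of the words of the family (helper7)

The proof is that of the row FST of squad MWE.
-/

set_option autoImplicit false

namespace Pool.Agent.MWFE.H7

open Pool.Agent.Helper14_MV Pool.Agent.Helper2_MV Pool.Agent.MVD
open Pool.Agent.MWE (Can XX fxy dxy dx dy up cp L4 pr Xs xl isx Fs nd nr)
open Pool.Agent.MWGR (cb)
open Pool.Agent.MWE.H81F
open Pool.Agent.MWFE

/-- the facts about a projected word -/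
structure Gz (m : ℕ) (R c X : List ℕ) (B : ℕ → List ℕ) (e : List ℕ) : Prop where
  b0 : fxy (B 0) = X
  b1 : ∃ h, B 1 = 0 :: (h ++ [3]) ∧ 0 ∉ h ∧ 3 ∉ h ∧ (∀ a ∈ c, a ∈ h) ∧ ∀ a ∈ h, a ∈ c
  xo : ∀ r ∈ R, r ≠ 0 → r ≠ 1 → 0 ∉ B r
  yo : ∀ r ∈ R, r ≠ 0 → r ≠ 1 → 3 ∉ B r
  xe : 0 ∉ e
  ye : 3 ∉ e
  li : ∀ d < m, ∀ r ∈ R, (B r).count (3 * d + 1) = if r = 1 ∨ r = d + 2 then 1 else 0
  le : ∀ d < m, 3 * d + 1 ∉ e
  nf : ∀ h, B 1 = 0 :: (h ++ [3]) → 0 ∉ h → 3 ∉ h →
    (∀ (a : ℕ) (h' : List ℕ), h = a :: h' → a ∉ B 0) ∧
    (∀ (a : ℕ) (h' : List ℕ), h = h' ++ [a] → a ∉ B 0)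

theorem gz_of (baz : BazStmt) (orz : OrzStmt) (nfz : NfzStmt) {n : ℕ} {β : FIC} {m : ℕ}
    {R c X : List ℕ} {B : ℕ → List ℕ} {e : List ℕ} (st : SitZ n β m R c) (hX : XX X)
    (hB : ∀ r, SFr (B r)) (he : SFr e)
    (hr : RR β (ExZ n m R c X) (Bw R (pz n (3 * m + 1) B) ++ e)) : Gz m R c X B e := by
  have hsf : ∀ r, SFr (pz n (3 * m + 1) B r) := by
    intro r
    unfold pz up
    split_ifs with h0
    · intro a ha
      rcases List.mem_append.1 ha with h2 | h2
      · rw [List.eq_of_mem_replicate h2]
        omega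
      · rcases List.mem_append.1 h2 with h3 | h3
        · exact hB 0 a h3
        · rw [List.eq_of_mem_replicate h3]
          omega
    · exact hB r
  have G := baz n β m R c X (pz n (3 * m + 1) B) e st.hz st.can st.pR st.b01 hX hsf he hr
  have hne : ∀ r, r ≠ 0 → pz n (3 * m + 1) B r = B r := by
    intro r h0
    unfold pz up
    rw [if_neg h0]
  refine ⟨orz n β m R c X B e st hX hB he hr, st.hb X B e hX hB he hr, ?_, ?_, G.xe, G.ye, ?_,
    G.le, ?_⟩
  · intro r hr h0 h1
    have := G.xo r hr h0 h1
    rwa [hne r h0] at this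
  · intro r hr h0 h1
    have := G.yo r hr h0 h1
    rwa [hne r h0] at this
  · intro d hd r hr
    have h2 := G.li d hd r hr
    by_cases h0 : r = 0
    · subst h0
      have h3 : pz n (3 * m + 1) B 0 =
          List.replicate n (3 * m + 1) ++ (B 0 ++ List.replicate n (3 * m + 1)) := rfl
      rw [h3, List.count_append, List.count_append] at h2
      have h4 : (List.replicate n (3 * m + 1)).count (3 * d + 1) = 0 := by
        apply List.count_eq_zero_of_not_mem
        intro h5
        have := List.eq_of_mem_replicate h5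
        omega
      rw [h4] at h2
      omega
    · rwa [hne r h0] at h2
  · intro h hh h0 h3
    exact nfz n β m R c X B e h st hX hB he hr hh h0 h3

theorem fsz (baz : BazStmt) (orz : OrzStmt) (nfz : NfzStmt) (faz : FazStmt) : FszStmt := by
  intro n β m R c t w hS hF
  obtain ⟨_, _, _, f4⟩ := faz n β m R c hS.hz hS.can hS.pR hS.no
  have hF' := hF
  obtain ⟨ht, B₀, e₀, hw₀, hB₀, he₀, _⟩ := hF'
  refine ⟨⟨B₀, e₀, hw₀, hB₀, he₀⟩, ?_⟩
  · intro B e hB he hw
    have gd : ∀ i k j : ℕ, i ≤ k → k < j → j ≤ 3 →
        Gz m R c (Xs i j t) (fun r => (B r).flatMap (pr i j k)) (e.flatMap (pr i j k)) := by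
      intro i k j hik hkj hj
      have h1 := f4 t B e hB he (hw ▸ hF) i k j hik hkj hj
      exact gz_of baz orz nfz hS (xx_xs ht (by omega) hj)
        (fun r => sfr_pr i j k (hB r)) (sfr_pr i j k he) h1
    have nf : ∀ i k j : ℕ, i ≤ k → k < j → j ≤ 3 → ∀ h : List ℕ,
        (B 1).flatMap (pr i j k) = 0 :: (h ++ [3]) → 0 ∉ h → 3 ∉ h →
        (∀ (a : ℕ) (h' : List ℕ), h = a :: h' → a ∉ (B 0).flatMap (pr i j k)) ∧
        (∀ (a : ℕ) (h' : List ℕ), h = h' ++ [a] → a ∉ (B 0).flatMap (pr i j k)) := by
      intro i k j hik hkj hj h hh h0 h3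
      exact (gd i k j hik hkj hj).nf h hh h0 h3
    have x1 : xl (B 1) = [0, 1, 2, 3] := by
      apply xs_inj xl_lt (List.Perm.refl _)
      intro i j hij hj
      obtain ⟨h, hh, h0, h3, -, -⟩ := (gd i i j (le_refl _) hij hj).b1
      have hh' : (B 1).flatMap (pr i j i) = 0 :: (h ++ [3]) := hh
      rw [← fxy_pr i j i, hh']
      have e1 : fxy h = [] := by
        unfold fxy
        rw [List.filter_eq_nil_iff]
        intro a ha
        have n0 : a ≠ 0 := fun h => h0 (h ▸ ha)
        have n3 : a ≠ 3 := fun h => h3 (h ▸ ha)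
        simp [n0, n3]
      have e2 : fxy (0 :: (h ++ [3])) = [0, 3] := by
        have : (0 :: (h ++ [3])) = [0] ++ (h ++ [3]) := rfl
        rw [this, fxy_append, fxy_append, e1]
        rfl
      rw [e2]
      have key : ∀ j < 4, ∀ i < j, [0, 3] = Xs i j [0, 1, 2, 3] := by decide
      exact key j (by omega) i hij
    have nox : ∀ D : List ℕ, (∀ i k j : ℕ, i ≤ k → k < j → j ≤ 3 →
        0 ∉ D.flatMap (pr i j k) ∧ 3 ∉ D.flatMap (pr i j k)) → xl D = [] := by
      intro D hD
      rw [List.eq_nil_iff_forall_not_mem]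
      intro a ha
      obtain ⟨h4, hm⟩ := mem_xl.mp ha
      by_cases h3 : a < 3
      · apply (hD a a (a + 1) (le_refl _) (by omega) (by omega)).1
        rw [List.mem_flatMap]
        refine ⟨3 * a, hm, ?_⟩
        rw [pr_i _ _ _ h4]
        simp
      · have ha3 : a = 3 := by omega
        subst ha3
        apply (hD 2 2 3 (le_refl _) (by omega) (by omega)).2
        rw [List.mem_flatMap]
        refine ⟨3 * 3, hm, ?_⟩
        rw [pr_j _ _ _ (by omega) (by omega)]
        simp
    -- neighbours
    have ne : ∀ (A C : List ℕ) (a b : ℕ), B 1 = A ++ a :: b :: C → isx a → ¬ isx b := by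
      intro A C a b hab ha hb
      have h1 : xl (B 1) = xl A ++ (a / 3 :: b / 3 :: xl C) := by
        rw [hab, xl_append, xl_cons, xl_cons, if_pos (show a % 3 = 0 ∧ a < 12 from ha),
          if_pos (show b % 3 = 0 ∧ b < 12 from hb)]
        rfl
      rw [x1] at h1
      have key : ∃ i, i < 3 ∧ a / 3 = i ∧ b / 3 = i + 1 := by
        rcases hA : xl A with _ | ⟨u, _ | ⟨v, _ | ⟨z, l⟩⟩⟩
        · rw [hA] at h1; simp at h1; exact ⟨0, by omega, by omega, by omega⟩
        · rw [hA] at h1; simp at h1; exact ⟨1, by omega, by omega, by omega⟩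
        · rw [hA] at h1; simp at h1; exact ⟨2, by omega, by omega, by omega⟩
        · exfalso
          rw [hA] at h1
          have := congrArg List.length h1
          simp at this
          omega
      obtain ⟨i, hi, h2, h3⟩ := key
      have ea : a = 3 * i := by
        have := ha.1
        omega
      have eb : b = 3 * (i + 1) := by
        have := hb.1
        omega
      obtain ⟨h, hh, h0, h3', hc, -⟩ := (gd i i (i + 1) (le_refl _) (by omega) (by omega)).b1
      have hh' : (B 1).flatMap (pr i (i + 1) i) = 0 :: (h ++ [3]) := hh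
      rw [hab, List.flatMap_append, List.flatMap_cons, List.flatMap_cons, ea, eb,
        pr_i _ _ _ (by omega), pr_j _ _ _ (by omega) (by omega)] at hh'
      have h4 := (uniq0 hh' h0).2
      cases h with
      | nil =>
        obtain ⟨u, hu⟩ := List.exists_mem_of_ne_nil _ hS.ne
        have := hc u hu
        simp at this
      | cons u h =>
        simp at h4
        apply h3'
        rw [← h4.1]
        simp
    refine ⟨hB, he, ?_, x1, ?_, ?_, ne, ?_, ?_, ?_, ?_, ?_⟩
    · -- x0
      apply xs_inj xl_lt ht
      intro i j hij hj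
      have h1 := (gd i i j (le_refl _) hij hj).b0
      rw [← fxy_pr i j i]
      exact h1
    · -- xo
      intro r hr h0 h1
      apply nox
      intro i k j hik hkj hj
      exact ⟨(gd i k j hik hkj hj).xo r hr h0 h1, (gd i k j hik hkj hj).yo r hr h0 h1⟩
    · -- xe
      apply nox
      intro i k j hik hkj hj
      exact ⟨(gd i k j hik hkj hj).xe, (gd i k j hik hkj hj).ye⟩
    · -- nb
      intro A C a b hab ha hb0
      have hbx := ne A C a b hab ha
      have hb2 : b % 3 ≠ 2 := hB 1 b (by rw [hab]; simp)
      obtain ⟨k, b', hk, n0, n3, hp⟩ := copy_of hb2 hbx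
      obtain ⟨i, ea⟩ : ∃ i, a = 3 * i := ⟨a / 3, by have := ha.1; omega⟩
      have hi : i < 4 := by have := ha.2; omega
      have h1 : xl (B 1) = xl A ++ (i :: xl C) := by
        have hbx' : ¬ (b % 3 = 0 ∧ b < 12) := hbx
        rw [hab, xl_append, xl_cons, xl_cons, if_pos (show a % 3 = 0 ∧ a < 12 from ha),
          if_neg hbx', ea]
        simp
      rw [x1] at h1
      rcases lt_trichotomy k i with hki | hki | hki
      · -- `k < i`
        obtain ⟨h, hh, h0, h3', hc, -⟩ := (gd k k i (le_refl _) hki (by omega)).b1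
        have hh' : (B 1).flatMap (pr k i k) = 0 :: (h ++ [3]) := hh
        rw [hab, List.flatMap_append, List.flatMap_cons, List.flatMap_cons, ea,
          pr_j _ _ _ (by omega) (by omega), hp] at hh'
        have h4 := (uniq3 hh' h3').2
        simp at h4
      · -- `k = i`
        subst hki
        obtain ⟨h, hh, h0, h3', hc, -⟩ := (gd k k (k + 1) (le_refl _) (by omega) (by omega)).b1
        have hh' : (B 1).flatMap (pr k (k + 1) k) = 0 :: (h ++ [3]) := hh
        have hn := (nf k k (k + 1) (le_refl _) (by omega) (by omega) h hh' h0 h3').1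
        rw [hab, List.flatMap_append, List.flatMap_cons, List.flatMap_cons, ea,
          pr_i _ _ _ (by omega), hp] at hh'
        have h4 := (uniq0 hh' h0).2
        cases h with
        | nil =>
          simp at h4
          exact n3 h4.1
        | cons u h =>
          simp at h4
          apply hn b' h (by rw [h4.1])
          rw [List.mem_flatMap]
          exact ⟨b, hb0, by rw [hp]; simp⟩
      · -- `i < k`
        have hkC : k ∈ xl C := by
          have : k ∈ xl A ++ (i :: xl C) := by rw [← h1]; simp; omega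
          rcases List.mem_append.mp this with hA | hA
          · exfalso
            rcases hA' : xl A with _ | ⟨u, _ | ⟨v, _ | ⟨z, _ | ⟨y, l⟩⟩⟩⟩
            · rw [hA'] at hA; simp at hA
            · rw [hA'] at h1 hA; simp at h1 hA; omega
            · rw [hA'] at h1 hA; simp at h1 hA; omega
            · rw [hA'] at h1 hA; simp at h1 hA; omega
            · rw [hA'] at h1
              have := congrArg List.length h1
              simp at this
          · rcases List.mem_cons.mp hA with hA | hA
            · omega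
            · exact hA
        have hkC' := (mem_xl.mp hkC).2
        obtain ⟨C1, C2, hC⟩ := List.append_of_mem hkC'
        obtain ⟨h, hh, h0, h3', hc, -⟩ := (gd k k (k + 1) (le_refl _) (by omega) (by omega)).b1
        have hh' : (B 1).flatMap (pr k (k + 1) k) = 0 :: (h ++ [3]) := hh
        rw [hab, hC] at hh'
        have hre : A ++ a :: b :: (C1 ++ 3 * k :: C2) = (A ++ a :: b :: C1) ++ 3 * k :: C2 := by
          simp
        rw [hre, List.flatMap_append, List.flatMap_cons, pr_i _ _ _ (by omega)] at hh'
        have h4 := (uniq0 hh' h0).1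
        rw [List.flatMap_append, List.flatMap_cons, List.flatMap_cons, hp] at h4
        simp at h4
    · -- nc
      intro A C a b hab hb ha0
      have hax : ¬ isx a := fun ha => ne A C a b hab ha hb
      have ha2 : a % 3 ≠ 2 := hB 1 a (by rw [hab]; simp)
      obtain ⟨k, a', hk, n0, n3, hp⟩ := copy_of ha2 hax
      obtain ⟨j, eb⟩ : ∃ j, b = 3 * j := ⟨b / 3, by have := hb.1; omega⟩
      have hj : j < 4 := by have := hb.2; omega
      have h1 : xl (B 1) = xl A ++ (j :: xl C) := by
        have hax' : ¬ (a % 3 = 0 ∧ a < 12) := hax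
        rw [hab, xl_append, xl_cons, xl_cons, if_neg hax',
          if_pos (show b % 3 = 0 ∧ b < 12 from hb), eb]
        simp
      rw [x1] at h1
      rcases lt_trichotomy (k + 1) j with hkj | hkj | hkj
      · -- `k + 1 < j`
        have hkA : k + 1 ∈ xl A := by
          have : k + 1 ∈ xl A ++ (j :: xl C) := by rw [← h1]; simp; omega
          rcases List.mem_append.mp this with hA | hA
          · exact hA
          · exfalso
            rcases List.mem_cons.mp hA with hA | hA
            · omega
            · rcases hA' : xl A with _ | ⟨u, _ | ⟨v, _ | ⟨z, _ | ⟨y, l⟩⟩⟩⟩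
              · rw [hA'] at h1; simp at h1; omega
              · rw [hA'] at h1; simp at h1; omega
              · rw [hA'] at h1; simp at h1
                rw [← h1.2.2.2] at hA
                simp at hA; omega
              · rw [hA'] at h1; simp at h1
                rw [h1.2.2.2.2] at hA
                simp at hA
              · rw [hA'] at h1
                have := congrArg List.length h1
                simp at this
        have hkA' := (mem_xl.mp hkA).2
        obtain ⟨A1, A2, hA⟩ := List.append_of_mem hkA'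
        obtain ⟨h, hh, h0, h3', hc, -⟩ := (gd k k (k + 1) (le_refl _) (by omega) (by omega)).b1
        have hh' : (B 1).flatMap (pr k (k + 1) k) = 0 :: (h ++ [3]) := hh
        rw [hab, hA] at hh'
        have hre : A1 ++ 3 * (k + 1) :: A2 ++ a :: b :: C =
            A1 ++ 3 * (k + 1) :: (A2 ++ a :: b :: C) := by
          simp
        rw [hre, List.flatMap_append, List.flatMap_cons, pr_j _ _ _ (by omega) (by omega)] at hh'
        have h4 := (uniq3 hh' h3').2
        rw [List.flatMap_append, List.flatMap_cons, hp] at h4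
        simp at h4
      · -- `k + 1 = j`
        subst hkj
        obtain ⟨h, hh, h0, h3', hc, -⟩ := (gd k k (k + 1) (le_refl _) (by omega) (by omega)).b1
        have hh' : (B 1).flatMap (pr k (k + 1) k) = 0 :: (h ++ [3]) := hh
        have hn := (nf k k (k + 1) (le_refl _) (by omega) (by omega) h hh' h0 h3').2
        rw [hab, List.flatMap_append, List.flatMap_cons, List.flatMap_cons, eb,
          pr_j _ _ _ (by omega) (by omega), hp] at hh'
        have hre : A.flatMap (pr k (k + 1) k) ++ ([a'] ++ ([3] ++ C.flatMap (pr k (k + 1) k))) =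
            (A.flatMap (pr k (k + 1) k) ++ [a']) ++ 3 :: C.flatMap (pr k (k + 1) k) := by
          simp
        rw [hre] at hh'
        have h4 := (uniq3 hh' h3').1
        rcases hA : A.flatMap (pr k (k + 1) k) with _ | ⟨u, l⟩
        · rw [hA] at h4
          simp at h4
          exact n0 h4.1
        · rw [hA] at h4
          simp at h4
          apply hn a' l h4.2.symm
          rw [List.mem_flatMap]
          exact ⟨a, ha0, by rw [hp]; simp⟩
      · -- `j ≤ k`
        obtain ⟨h, hh, h0, h3', hc, -⟩ := (gd j k (k + 1) (by omega) (by omega) (by omega)).b1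
        have hh' : (B 1).flatMap (pr j (k + 1) k) = 0 :: (h ++ [3]) := hh
        rw [hab, List.flatMap_append, List.flatMap_cons, List.flatMap_cons, eb,
          pr_i _ _ _ (by omega), hp] at hh'
        have hre : A.flatMap (pr j (k + 1) k) ++ ([a'] ++ ([0] ++ C.flatMap (pr j (k + 1) k))) =
            (A.flatMap (pr j (k + 1) k) ++ [a']) ++ 0 :: C.flatMap (pr j (k + 1) k) := by
          simp
        rw [hre] at hh'
        have h4 := (uniq0 hh' h0).1
        simp at h4
    · -- li
      intro b hb r hr
      have hk : b % 3 < 3 := by omega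
      have h1 := (gd (b % 3) (b % 3) (b % 3 + 1) (le_refl _) (by omega) (by omega)).li (b / 3)
        (by omega) r hr
      have h2 : ((B r).flatMap (pr (b % 3) (b % 3 + 1) (b % 3))).count (3 * (b / 3) + 1) =
          if r = 1 ∨ r = b / 3 + 2 then 1 else 0 := h1
      rw [cnt_pr _ _ _ _ hk] at h2
      have h3 : 3 * (b / 3) + b % 3 = b := by omega
      rwa [h3] at h2
    · -- le
      intro b hb hbe
      have hk : b % 3 < 3 := by omega
      have h1 := (gd (b % 3) (b % 3) (b % 3 + 1) (le_refl _) (by omega) (by omega)).le (b / 3)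
        (by omega)
      apply h1
      rw [mem_pr _ _ _ _ hk]
      have h3 : 3 * (b / 3) + b % 3 = b := by omega
      rwa [h3]
    · -- fu
      intro A h C a hab ha d hd
      obtain ⟨h', hh, h0, h3', hc, -⟩ := (gd a a (a + 1) (le_refl _) (by omega) (by omega)).b1
      have hh' : (B 1).flatMap (pr a (a + 1) a) = 0 :: (h' ++ [3]) := hh
      rw [hab, List.flatMap_append, List.flatMap_cons, List.flatMap_append, List.flatMap_cons,
        pr_i _ _ _ (by omega), pr_j _ _ _ (by omega) (by omega)] at hh'
      have h4 := (uniq0 hh' h0).2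
      have hdc : 3 * d + 1 ∈ c := by
        rw [← List.count_pos_iff, hS.can.li d hd]
        omega
      have hd' := hc _ hdc
      rw [← mem_pr a (a + 1) a d ha]
      have h5 : h.flatMap (pr a (a + 1) a) ++ 3 :: C.flatMap (pr a (a + 1) a) = h' ++ [3] := by
        simpa using h4
      have h6 : (0 :: h.flatMap (pr a (a + 1) a)) ++ 3 :: C.flatMap (pr a (a + 1) a) =
          0 :: (h' ++ [3]) := by
        simpa using h5
      have h7 := (uniq3 h6 h3').1
      simp at h7
      rw [h7]
      exact hd'

end Pool.Agent.MWFE.H7
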