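import Pool.Agent.MWFE.StmtsB

/-!
# Squad MWFE (MP_23468a_al): the row NFZ (helper7)
-/

set_option autoImplicit false

namespace Pool.Agent.MWFE.H7

open Pool.Agent.Helper14_MV Pool.Agent.Helper2_MV Pool.Agent.MVD
open Pool.Agent.MWE (Can XX fxy dxy dx dy up cp L4 pr Xs xl isx Fs nd nr)
open Pool.Agent.MWGR (cb)
open Pool.Agent.MWFE

theorem Bw_append (R S : List ℕ) (B : ℕ → List ℕ) : Bw (R ++ S) B = Bw R B ++ Bw S B := by
  simp [Bw]

theorem Bw_cons (r : ℕ) (S : List ℕ) (B : ℕ → List ℕ) :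
    Bw (r :: S) B = B r ++ (3 * r + 2) :: Bw S B := by
  simp [Bw]

theorem Bw_congr (R : List ℕ) (B B' : ℕ → List ℕ) (h : ∀ r ∈ R, B r = B' r) :
    Bw R B = Bw R B' := by
  unfold Bw
  induction R with
  | nil => rfl
  | cons r S ih =>
    rw [List.flatMap_cons, List.flatMap_cons, h r List.mem_cons_self,
      ih (fun s hs => h s (List.mem_cons_of_mem _ hs))]

/-- the exchange of two adjacent letters of block `1` which are both in block `0` -/
theorem step1 (lcf : LcfStmt) (baz : BazStmt) {n : ℕ} {β : FIC} {m : ℕ} {R c X : List ℕ}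
    {B : ℕ → List ℕ} {e : List ℕ} (st : SitZ n β m R c) (hX : XX X) (hB : ∀ r, SFr (B r))
    (he : SFr e) (hr : RR β (ExZ n m R c X) (Bw R (pz n (3 * m + 1) B) ++ e)) {α γ : List ℕ}
    {u v : ℕ} (h1 : B 1 = α ++ u :: v :: γ) (hu : u ∈ B 0) (hv : v ∈ B 0) :
    ∃ h', α ++ v :: u :: γ = 0 :: (h' ++ [3]) := by
  have hsf : ∀ r, SFr (pz n (3 * m + 1) B r) := by
    intro r
    unfold pz up
    split_ifs with h0
    · intro a ha
      rcases List.mem_append.1 ha with h2 | h2
      · rw [List.eq_of_mem_replicate h2]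
        omega
      · rcases List.mem_append.1 h2 with h3 | h3
        · exact hB 0 a h3
        · rw [List.eq_of_mem_replicate h3]
          omega
    · exact hB r
  have G := baz n β m R c X (pz n (3 * m + 1) B) e st.hz st.can st.pR st.b01 hX hsf he hr
  set B' := pz n (3 * m + 1) B with hB'
  have hB'1 : B' 1 = α ++ u :: v :: γ := by
    rw [← h1]
    rfl
  have hu' : u ∈ B' 0 := by
    show u ∈ up B 0 _ 0
    unfold up
    rw [if_pos rfl]
    exact List.mem_append_right _ (List.mem_append_left _ hu)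
  have hv' : v ∈ B' 0 := by
    show v ∈ up B 0 _ 0
    unfold up
    rw [if_pos rfl]
    exact List.mem_append_right _ (List.mem_append_left _ hv)
  obtain ⟨A0, B0, C0, hR⟩ := st.b01
  have hnd : R.Nodup := st.pR.nodup_iff.2 List.nodup_range
  have hn1 : 1 ∉ A0 ∧ 1 ∉ B0 ∧ 1 ∉ C0 := by
    rw [hR] at hnd
    rw [List.nodup_append] at hnd
    obtain ⟨_, q2, q3⟩ := hnd
    rw [List.nodup_cons, List.nodup_append] at q2
    obtain ⟨_, _, q5, q6⟩ := q2
    rw [List.nodup_cons] at q5
    refine ⟨fun h => ?_, fun h => ?_, q5.1⟩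
    · exact q3 1 h 1 (by simp) rfl
    · exact q6 1 h 1 (by simp) rfl
  have hword : Bw R B' ++ e = Bw A0 B' ++ (B' 0 ++ ((2 :: (Bw B0 B' ++ α)) ++ u :: v ::
      (γ ++ 5 :: (Bw C0 B' ++ e)))) := by
    rw [hR, Bw_append, Bw_cons, Bw_append, Bw_cons, hB'1]
    simp
  have h0R : 0 ∈ R := by
    rw [hR]
    simp
  have hlcf := (lcf β st.hz.ff st.hz.zz (Bw A0 B') (2 :: (Bw B0 B' ++ α)) (B' 0)
    (γ ++ 5 :: (Bw C0 B' ++ e)) u v hu' hv').2 (by
      intro d hd
      rw [← hword]
      refine G.mu d ?_ (hsf 0 d hd)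
      rw [hword]
      exact List.mem_append_right _ (List.mem_append_left _ hd))
  rw [← hword] at hlcf
  -- the new word
  have hnew : Bw A0 B' ++ (B' 0 ++ ((2 :: (Bw B0 B' ++ α)) ++ v :: u ::
      (γ ++ 5 :: (Bw C0 B' ++ e)))) =
      Bw R (pz n (3 * m + 1) (up B 1 (α ++ v :: u :: γ))) ++ e := by
    set B2 := pz n (3 * m + 1) (up B 1 (α ++ v :: u :: γ)) with hB2
    have c0 : B2 0 = B' 0 := rfl
    have c1 : B2 1 = α ++ v :: u :: γ := rfl
    have c2 : ∀ r, r ≠ 1 → B2 r = B' r := by
      intro r hr1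
      by_cases hr0 : r = 0
      · rw [hr0]
        exact c0
      · show up (up B 1 _) 0 _ r = up B 0 _ r
        unfold up
        rw [if_neg hr0, if_neg hr0, if_neg hr1]
    have d1 : Bw A0 B2 = Bw A0 B' := Bw_congr _ _ _ fun r hr1 =>
      c2 r (fun h => hn1.1 (h ▸ hr1))
    have d2 : Bw B0 B2 = Bw B0 B' := Bw_congr _ _ _ fun r hr1 =>
      c2 r (fun h => hn1.2.1 (h ▸ hr1))
    have d3 : Bw C0 B2 = Bw C0 B' := Bw_congr _ _ _ fun r hr1 =>
      c2 r (fun h => hn1.2.2 (h ▸ hr1))
    rw [hR, Bw_append, Bw_cons, Bw_append, Bw_cons, d1, d2, d3, c0, c1]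
    simp
  rw [hnew] at hlcf
  have hsf2 : ∀ r, SFr (up B 1 (α ++ v :: u :: γ) r) := by
    intro r
    unfold up
    split_ifs with h0
    · intro a ha
      refine hB 1 a ?_
      rw [h1]
      simp only [List.mem_append, List.mem_cons] at ha ⊢
      tauto
    · exact hB r
  obtain ⟨h', q1, _⟩ := st.hb X (up B 1 (α ++ v :: u :: γ)) e hX hsf2 he (β.trans hr hlcf)
  exact ⟨h', q1⟩

theorem nfz (lcf : LcfStmt) (baz : BazStmt) : NfzStmt := by
  intro n β m R c X B e h st hX hB he hr h1 h0 h3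
  have hsf : ∀ r, SFr (pz n (3 * m + 1) B r) := by
    intro r
    unfold pz up
    split_ifs with h0
    · intro a ha
      rcases List.mem_append.1 ha with h2 | h2
      · rw [List.eq_of_mem_replicate h2]
        omega
      · rcases List.mem_append.1 h2 with h3 | h3
        · exact hB 0 a h3
        · rw [List.eq_of_mem_replicate h3]
          omega
    · exact hB r
  have G := baz n β m R c X (pz n (3 * m + 1) B) e st.hz st.can st.pR st.b01 hX hsf he hr
  have hmem : ∀ a, a % 3 = 0 → a ∈ pz n (3 * m + 1) B 0 → a ∈ B 0 := by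
    intro a ha h2
    have h3 : a ∈ List.replicate n (3 * m + 1) ++ (B 0 ++ List.replicate n (3 * m + 1)) := h2
    rcases List.mem_append.1 h3 with h4 | h4
    · have := List.eq_of_mem_replicate h4
      omega
    · rcases List.mem_append.1 h4 with h5 | h5
      · exact h5
      · have := List.eq_of_mem_replicate h5
        omega
  have z0 : 0 ∈ B 0 := hmem 0 rfl (List.count_pos_iff.1 (by rw [G.x0]; exact one_pos))
  have z3 : 3 ∈ B 0 := hmem 3 rfl (List.count_pos_iff.1 (by rw [G.y0]; exact one_pos))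
  constructor
  · intro a h' hh ha
    have e1 : B 1 = [] ++ 0 :: a :: (h' ++ [3]) := by rw [h1, hh]; rfl
    obtain ⟨g, hg⟩ := step1 lcf baz st hX hB he hr e1 z0 ha
    have e2 : a = 0 := by
      have := congrArg List.head? hg
      simpa using this
    exact h0 (by rw [hh, e2]; exact List.mem_cons_self)
  · intro a h' hh ha
    have e1 : B 1 = (0 :: h') ++ a :: 3 :: [] := by
      rw [h1, hh, List.append_assoc]
      rfl
    obtain ⟨g, hg⟩ := step1 lcf baz st hX hB he hr e1 ha z3
    have e2 : a = 3 := by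
      have := congrArg List.getLast? hg
      have l1 : (0 :: h' ++ 3 :: a :: []).getLast? = some a := by
        have : (0 :: h' ++ 3 :: a :: []) = (0 :: h' ++ [3]) ++ [a] := by simp
        rw [this, List.getLast?_append]
        rfl
      have l2 : (0 :: (g ++ [3])).getLast? = some 3 := by
        have : (0 :: (g ++ [3])) = (0 :: g) ++ [3] := by simp
        rw [this, List.getLast?_append]
        rfl
      rw [l1, l2] at this
      exact Option.some.inj this
    exact h3 (by rw [hh, e2]; simp)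

end Pool.Agent.MWFE.H7
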