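import Pool.Agent.MWFE.StmtsA

/-!
# Squad MWFE (MP_23468a_al): the row RCF (helper7)
-/

set_option autoImplicit false

namespace Pool.Agent.MWFE.H7

open Pool.Agent.Helper14_MV Pool.Agent.Helper2_MV Pool.Agent.MVD
open Pool.Agent.MWFE

variable {n : ℕ} {β : FIC}

/-- insertion of several powers -/
theorem insk (hit : MWGR.It n (RR β)) (p w w' q : List ℕ) (x : ℕ)
    (h : MVO.Sys.Mul (w ++ w') (p ++ x :: (w ++ (w' ++ x :: q)))) (k : ℕ) :
    RR β (p ++ x :: (w ++ (w' ++ x :: q)))
      (p ++ x :: (w ++ (List.replicate (n * k) x ++ (w' ++ x :: q)))) := by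
  induction k with
  | zero =>
    rw [Nat.mul_zero, List.replicate_zero, List.nil_append]
    exact RR.refl _
  | succ k ih =>
    have h1 := hit p (w ++ List.replicate (n * k) x) w' q x (by
      intro a ha
      have hx : 2 ≤ (p ++ x :: ((w ++ List.replicate (n * k) x) ++ (w' ++ x :: q))).count x := by
        simp only [List.count_append, List.count_cons_self]
        omega
      by_cases hax : a = x
      · rw [hax]
        exact hx
      · have ha' : a ∈ w ++ w' := by
          rcases List.mem_append.1 ha with h1 | h1
          · rcases List.mem_append.1 h1 with h2 | h2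
            · exact List.mem_append_left _ h2
            · exact absurd (List.eq_of_mem_replicate h2) hax
          · exact List.mem_append_right _ h1
        have h2 := h a ha'
        refine le_trans h2 ?_
        simp only [List.count_append, List.count_cons]
        omega)
    have h2 : RR β (p ++ x :: (w ++ (List.replicate (n * k) x ++ (w' ++ x :: q))))
        (p ++ x :: (w ++ (List.replicate (n * (k + 1)) x ++ (w' ++ x :: q)))) := by
      rw [Nat.mul_succ, ← List.replicate_append_replicate]
      simpa only [List.append_assoc] using h1
    exact β.trans ih h2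

/-- the crossing in all contexts -/
theorem crs (hrc : RR β (cw 3 1) (cw 2 2)) {i j : ℕ} (hi : 2 ≤ i) (hj : 1 ≤ j)
    (p T q : List ℕ) (x y : ℕ) :
    RR β (p ++ (List.replicate (i + 1) x ++ y :: (List.replicate j x ++ (T ++ y :: q))))
      (p ++ (List.replicate i x ++ y :: (List.replicate (j + 1) x ++ (T ++ y :: q)))) := by
  have h1 := RR.sub (β := β)
    (fun c => if c = 0 then [x] else if c = 3 then [y] else List.replicate (j - 1) x ++ T) hrc
  have h2 : RR β (x :: x :: x :: y :: x :: (List.replicate (j - 1) x ++ T ++ [y]))
      (x :: x :: y :: x :: x :: (List.replicate (j - 1) x ++ T ++ [y])) := h1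
  have h3 := ((RR.refl (β := β) (p ++ List.replicate (i - 2) x)).append h2).append
    (RR.refl (β := β) q)
  have e1 : p ++ List.replicate (i - 2) x ++
      x :: x :: x :: y :: x :: (List.replicate (j - 1) x ++ T ++ [y]) ++ q =
      p ++ (List.replicate (i + 1) x ++ y :: (List.replicate j x ++ (T ++ y :: q))) := by
    obtain ⟨i', rfl⟩ : ∃ i', i = i' + 2 := ⟨i - 2, by omega⟩
    obtain ⟨j', rfl⟩ : ∃ j', j = j' + 1 := ⟨j - 1, by omega⟩
    have f1 : List.replicate (i' + 2 + 1) x = List.replicate i' x ++ [x, x, x] := by
      have : [x, x, x] = List.replicate 3 x := rfl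
      rw [this, List.replicate_append_replicate]
    have f2 : List.replicate (j' + 1) x = x :: List.replicate j' x := List.replicate_succ
    rw [f1, f2, Nat.add_sub_cancel, Nat.add_sub_cancel]
    simp
  have e2 : p ++ List.replicate (i - 2) x ++
      x :: x :: y :: x :: x :: (List.replicate (j - 1) x ++ T ++ [y]) ++ q =
      p ++ (List.replicate i x ++ y :: (List.replicate (j + 1) x ++ (T ++ y :: q))) := by
    obtain ⟨i', rfl⟩ : ∃ i', i = i' + 2 := ⟨i - 2, by omega⟩
    obtain ⟨j', rfl⟩ : ∃ j', j = j' + 1 := ⟨j - 1, by omega⟩
    have f1 : List.replicate (i' + 2) x = List.replicate i' x ++ [x, x] := by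
      have : [x, x] = List.replicate 2 x := rfl
      rw [this, List.replicate_append_replicate]
    have f2 : List.replicate (j' + 1 + 1) x = x :: x :: List.replicate j' x := by
      rw [List.replicate_succ, List.replicate_succ]
    rw [f1, f2, Nat.add_sub_cancel, Nat.add_sub_cancel]
    simp
  rw [e1, e2] at h3
  exact h3

theorem rcf : RcfStmt := by
  intro n β hn _ hit hff hrc p q w r x a b hxa hxb hab hw
  -- the tail
  obtain ⟨m, rfl⟩ : ∃ m, n = m + 1 := ⟨n - 1, by omega⟩
  -- multiplicities
  have hcnt : ∀ (u v : List ℕ) (d : ℕ), d ∈ w →
      (∀ e, e ≠ x → (p ++ (List.replicate (m + 1) x ++ a :: (List.replicate (m + 1 + 1) x ++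
      b :: (List.replicate (m + 1) x ++ (q ++ a :: (w ++ b :: r)))))).count e ≤ u.count e) →
      2 ≤ u.count x → 2 ≤ u.count d := by
    intro u v d hd h1 h2
    by_cases hdx : d = x
    · rw [hdx]
      exact h2
    · exact le_trans (hw d hd) (h1 d hdx)
  -- the middle step with `F`
  have hF : ∀ (k l : ℕ), 1 ≤ k → 1 ≤ l →
      RR β (p ++ (List.replicate k x ++ a :: b :: (List.replicate l x ++
        (q ++ a :: (w ++ b :: r)))))
        (p ++ (List.replicate k x ++ b :: a :: (List.replicate l x ++
        (q ++ a :: (w ++ b :: r))))) := by
    intro k l hk hl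
    have h1 := hff (p ++ List.replicate k x) (List.replicate l x ++ q) w r a b (by
      intro d hd
      refine hcnt _ [] d hd ?_ ?_
      · intro e he
        simp only [List.count_append, List.count_cons, List.count_replicate]
        have : (x == e) = false := by
          rw [beq_eq_false_iff_ne]
          exact fun h => he h.symm
        simp only [this]
        simp
      · simp only [List.count_append, List.count_cons, List.count_replicate, beq_self_eq_true,
          if_true]
        omega)
    simpa only [List.append_assoc, List.cons_append] using h1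
  have ma : ∀ u v : List ℕ, 2 ≤ (u ++ a :: (v ++ (q ++ a :: (w ++ b :: r)))).count a := by
    intro u v
    simp only [List.count_append, List.count_cons_self]
    omega
  have mb : ∀ u v : List ℕ, 2 ≤ (u ++ b :: (v ++ (q ++ a :: (w ++ b :: r)))).count b := by
    intro u v
    simp only [List.count_append, List.count_cons_self, List.count_cons]
    omega
  -- insertion between `a` and `b`
  have hI1 : ∀ (k l t : ℕ), RR β
      (p ++ (List.replicate (k + 1) x ++ a :: b :: (List.replicate (l + 1) x ++
        (q ++ a :: (w ++ b :: r)))))
      (p ++ (List.replicate (k + 1) x ++ a :: (List.replicate ((m + 1) * t) x ++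
        b :: (List.replicate (l + 1) x ++ (q ++ a :: (w ++ b :: r)))))) := by
    intro k l t
    have h1 := insk hit (p ++ List.replicate k x) [a] [b]
      (List.replicate l x ++ (q ++ a :: (w ++ b :: r))) x (by
        intro d hd
        rcases List.mem_append.1 hd with h | h
        · rw [List.mem_singleton] at h
          rw [h]
          have := ma (p ++ List.replicate k x ++ [x]) (b :: x :: List.replicate l x)
          simpa using this
        · rw [List.mem_singleton] at h
          rw [h]
          have := mb (p ++ List.replicate k x ++ [x, a]) (x :: List.replicate l x)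
          simpa using this) t
    rw [List.replicate_succ' (n := k), List.replicate_succ (n := l)]
    simpa only [List.append_assoc, List.cons_append, List.nil_append] using h1
  have hI2 : ∀ (k l t : ℕ), RR β
      (p ++ (List.replicate (k + 1) x ++ b :: a :: (List.replicate (l + 1) x ++
        (q ++ a :: (w ++ b :: r)))))
      (p ++ (List.replicate (k + 1) x ++ b :: (List.replicate ((m + 1) * t) x ++
        a :: (List.replicate (l + 1) x ++ (q ++ a :: (w ++ b :: r)))))) := by
    intro k l t
    have h1 := insk hit (p ++ List.replicate k x) [b] [a]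
      (List.replicate l x ++ (q ++ a :: (w ++ b :: r))) x (by
        intro d hd
        rcases List.mem_append.1 hd with h | h
        · rw [List.mem_singleton] at h
          rw [h]
          have := mb (p ++ List.replicate k x ++ [x]) (a :: x :: List.replicate l x)
          simpa using this
        · rw [List.mem_singleton] at h
          rw [h]
          have := ma (p ++ List.replicate k x ++ [x, b]) (x :: List.replicate l x)
          simpa using this) t
    rw [List.replicate_succ' (n := k), List.replicate_succ (n := l)]
    simpa only [List.append_assoc, List.cons_append, List.nil_append] using h1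
  rcases Nat.eq_zero_or_pos m with hm | hm
  · -- period one
    subst hm
    -- left: `x a xx b x ~ x a b x ~ x b a x`
    have s1 := hI1 0 0 2
    have s2 := hF 1 1 le_rfl le_rfl
    -- `x b a x ~ x x b a x`
    have s3 : RR β (p ++ x :: (b :: a :: x :: (q ++ a :: (w ++ b :: r))))
        (p ++ x :: x :: (b :: a :: x :: (q ++ a :: (w ++ b :: r)))) := by
      have := hit p [] [b, a] (q ++ a :: (w ++ b :: r)) x (by
        intro d hd
        simp only [List.nil_append, List.mem_cons, List.not_mem_nil, or_false] at hd
        rcases hd with h | h
        · rw [h]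
          have := mb (p ++ [x]) [a, x]
          simpa using this
        · rw [h]
          have := ma (p ++ [x, b]) [x]
          simpa using this)
      simpa using this
    have s4 : RR β (p ++ x :: x :: (b :: a :: x :: (q ++ a :: (w ++ b :: r))))
        (p ++ x :: x :: (b :: a :: x :: x :: (q ++ a :: (w ++ b :: r)))) := by
      have := hit (p ++ [x]) [b, a] [] (q ++ a :: (w ++ b :: r)) x (by
        intro d hd
        simp only [List.append_nil, List.mem_cons, List.not_mem_nil, or_false] at hd
        rcases hd with h | h
        · rw [h]
          have := mb (p ++ [x, x]) [a, x]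
          simpa using this
        · rw [h]
          have := ma (p ++ [x, x, b]) [x]
          simpa using this)
      simpa using this
    have s5 := hI2 1 1 1
    have t1 : RR β (p ++ (List.replicate (0 + 1) x ++ a :: (List.replicate (0 + 1 + 1) x ++
      b :: (List.replicate (0 + 1) x ++ (q ++ a :: (w ++ b :: r))))))
      (p ++ x :: (b :: a :: x :: (q ++ a :: (w ++ b :: r)))) := by
      have s2' : RR β (p ++ (List.replicate (0 + 1) x ++ a :: b :: (List.replicate (0 + 1) x ++
        (q ++ a :: (w ++ b :: r)))))
        (p ++ x :: (b :: a :: x :: (q ++ a :: (w ++ b :: r)))) := by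
        simpa using s2
      exact β.trans s1.symm s2'
    have s5' : RR β (p ++ x :: x :: (b :: a :: x :: x :: (q ++ a :: (w ++ b :: r))))
      (p ++ (List.replicate (0 + 1 + 1) x ++ b ::
        (List.replicate (0 + 1 + (0 + 1 - 1) * 1) x ++
        a :: (List.replicate (0 + 1 + 1) x ++ (q ++ a :: (w ++ b :: r)))))) := by
      simpa using s5
    exact β.trans t1 (β.trans s3 (β.trans s4 s5'))
  · -- larger periods
    have s1 := (crs hrc (i := m + 1) (j := m + 1) (by omega) (by omega) p
      (b :: (List.replicate (m + 1) x ++ q)) (w ++ b :: r) x a).symm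
    have s2 := (hI1 (m + 1) m 1).symm
    have s3 := hF (m + 1 + 1) (m + 1) (by omega) (by omega)
    have s4 := hI2 (m + 1) m 2
    have s5 := crs hrc (i := 2 * m + 1) (j := m + 1) (by omega) (by omega)
      (p ++ (List.replicate (m + 1 + 1) x ++ [b])) q (w ++ b :: r) x a
    have e : (m + 1) * 2 = 2 * m + 1 + 1 := by ring
    have e' : m + 1 + (m + 1 - 1) * 1 = 2 * m + 1 := by omega
    rw [e] at s4
    rw [e']
    rw [Nat.mul_one] at s2
    have t1 : RR β (p ++ (List.replicate (m + 1) x ++ a :: (List.replicate (m + 1 + 1) x ++
      b :: (List.replicate (m + 1) x ++ (q ++ a :: (w ++ b :: r))))))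
      (p ++ (List.replicate (m + 1 + 1) x ++ a :: (List.replicate (m + 1) x ++
      b :: (List.replicate (m + 1) x ++ (q ++ a :: (w ++ b :: r)))))) := by
      simpa only [List.append_assoc, List.cons_append, List.nil_append] using s1
    have t5 : RR β (p ++ (List.replicate (m + 1 + 1) x ++ b :: (List.replicate (2 * m + 1 + 1) x ++
      a :: (List.replicate (m + 1) x ++ (q ++ a :: (w ++ b :: r))))))
      (p ++ (List.replicate (m + 1 + 1) x ++ b :: (List.replicate (2 * m + 1) x ++
      a :: (List.replicate (m + 1 + 1) x ++ (q ++ a :: (w ++ b :: r)))))) := by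
      simpa only [List.append_assoc, List.cons_append, List.nil_append] using s5
    exact β.trans t1 (β.trans s2 (β.trans s3 (β.trans s4 t5)))

end Pool.Agent.MWFE.H7
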