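import Pool.Agent.MWFE.StmtsA

/-!
# Squad MWFE (MP_23468a_al): the row LQ1 (helper7)
-/

set_option autoImplicit false

namespace Pool.Agent.MWFE.H7

open Pool.Agent.Helper14_MV Pool.Agent.Helper2_MV Pool.Agent.MVD
open Pool.Agent.MWFE

theorem lq1 (h1 : LqrStmt) : Lq1Stmt := by
  intro n β hz i h
  obtain ⟨_, q2, _, _, q5⟩ := h1 n β hz
  have h01 : Lq n β 0 1 := by
    rw [q5 0 1 i]
    have e1 : 0 + i = i := by omega
    have e2 : 1 + i = i + 1 := by omega
    rw [e1, e2]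
    exact h
  have h23 : Lq n β (0 + 2) (1 + 2) := (q5 0 1 2).1 h01
  have h32 := q2 _ _ h23
  exact hz.rc (h32 3 2 1 2 rfl rfl rfl (by omega) (by omega) (by omega) (by omega))

end Pool.Agent.MWFE.H7
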